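import Mathlib

/-! # A finitely generated acyclic monoid without the ACCP -/

namespace Pool.Agent.Results.MP_07bc1a_al.Counterexample

section defs
variable (H : Type*) [Monoid H]

/-- `uxv ≠ x` whenever `u` or `v` is not a unit -/
def Acyclic : Prop := ∀ u v x : H, (¬ IsUnit u ∨ ¬ IsUnit v) → u * x * v ≠ x

variable {H} in
/-- the principal two-sided ideal `HaH` -/
def principalIdeal (a : H) : Set H := {z | ∃ x y : H, z = x * a * y}

end defs

/-- The carrier of the ambient monoid: `(α, γ, δ, β, ε)`. For a word in the four letters `a,b,c,d`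
these are: the number of letters `a`, the number of letters `c`, the number of letters `d` minus
the number of letters `b`, the number of letters `b` before the first `a`, and the number of
letters `b,d` after the last `c`. -/
@[ext] structure P : Type where
  α : ℕ
  γ : ℕ
  δ : ℤ
  β : ℕ
  ε : ℕ

namespace P

/-- the multiplication -/
def mul (x y : P) : P :=
  ⟨x.α + y.α, x.γ + y.γ, x.δ + y.δ, x.β + (if x.α = 0 then y.β else 0),
    y.ε + (if y.γ = 0 then x.ε else 0)⟩

theorem mul_assoc' (x y z : P) : mul (mul x y) z = mul x (mul y z) := by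
  ext
  · simp only [mul]; omega
  · simp only [mul]; omega
  · simp only [mul]; omega
  · simp only [mul]; split_ifs <;> omega
  · simp only [mul]; split_ifs <;> omega

instance : Monoid P where
  mul := mul
  one := ⟨0, 0, 0, 0, 0⟩
  mul_assoc := mul_assoc'
  one_mul x := by
    change mul ⟨0, 0, 0, 0, 0⟩ x = x
    ext <;> simp [mul]
  mul_one x := by
    change mul x ⟨0, 0, 0, 0, 0⟩ = x
    ext <;> simp [mul]

@[simp] theorem mul_α (x y : P) : (x * y).α = x.α + y.α := rfl
@[simp] theorem mul_γ (x y : P) : (x * y).γ = x.γ + y.γ := rfl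
@[simp] theorem mul_δ (x y : P) : (x * y).δ = x.δ + y.δ := rfl
theorem mul_β (x y : P) : (x * y).β = x.β + (if x.α = 0 then y.β else 0) := rfl
theorem mul_ε (x y : P) : (x * y).ε = y.ε + (if y.γ = 0 then x.ε else 0) := rfl
@[simp] theorem one_α : (1 : P).α = 0 := rfl
@[simp] theorem one_γ : (1 : P).γ = 0 := rfl
@[simp] theorem one_δ : (1 : P).δ = 0 := rfl
@[simp] theorem one_β : (1 : P).β = 0 := rfl
@[simp] theorem one_ε : (1 : P).ε = 0 := rfl

/-- the generator `a` -/
def a : P := ⟨1, 0, 0, 0, 0⟩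
/-- the generator `b` -/
def b : P := ⟨0, 0, -1, 1, 1⟩
/-- the generator `c` -/
def c : P := ⟨0, 1, 0, 0, 0⟩
/-- the generator `d` -/
def d : P := ⟨0, 0, 1, 0, 1⟩

/-- the submonoid generated by `a, b, c, d` -/
def S : Submonoid P := Submonoid.closure {a, b, c, d}

theorem inv {x : P} (hx : x ∈ S) : x.α = 0 → x.γ = 0 → (x.ε : ℤ) = x.δ + 2 * x.β ∧ x.β ≤ x.ε := by
  induction hx using Submonoid.closure_induction with
  | mem x hx =>
    rcases hx with rfl | rfl | rfl | rfl <;> simp [a, b, c, d]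
  | one => simp
  | mul x y _ _ hx hy =>
    intro h1 h2
    simp only [mul_α, mul_γ] at h1 h2
    have h3 : x.α = 0 := by omega
    have h4 : y.γ = 0 := by omega
    obtain ⟨h5, h6⟩ := hx h3 (by omega)
    obtain ⟨h7, h8⟩ := hy (by omega) h4
    rw [mul_β, mul_ε, mul_δ, if_pos h3, if_pos h4]
    omega

theorem eq_one {x : P} (hx : x ∈ S) (h1 : x.α = 0) (h2 : x.γ = 0) (h3 : x.ε = 0) : x = 1 := by
  obtain ⟨h4, h5⟩ := inv hx h1 h2
  ext
  · exact h1
  · exact h2
  · simp only [one_δ]; omega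
  · simp only [one_β]; omega
  · exact h3

theorem key {u v x : P} (hu : u ∈ S) (hv : v ∈ S) (h : u * x * v = x) : u = 1 ∧ v = 1 := by
  have hα := congrArg P.α h
  have hγ := congrArg P.γ h
  have hδ := congrArg P.δ h
  have hβ := congrArg P.β h
  have hε := congrArg P.ε h
  simp only [mul_α, mul_γ, mul_δ, mul_β, mul_ε] at hα hγ hδ hβ hε
  have u1 : u.α = 0 := by omega
  have u2 : u.γ = 0 := by omega
  have v1 : v.α = 0 := by omega
  have v2 : v.γ = 0 := by omega
  obtain ⟨u3, u4⟩ := inv hu u1 u2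
  obtain ⟨v3, v4⟩ := inv hv v1 v2
  have hh : u.ε = 0 ∧ v.ε = 0 := by
    simp only [u1, v2, if_true, zero_add] at hβ hε
    by_cases hxa : x.α = 0 <;> by_cases hxc : x.γ = 0
    · simp only [hxa, hxc, if_true] at hβ hε; omega
    · simp only [hxa, hxc, if_true, if_false] at hβ hε; omega
    · simp only [hxa, hxc, if_true, if_false] at hβ hε; omega
    · simp only [hxa, hxc, if_false] at hβ hε; omega
  exact ⟨eq_one hu u1 u2 hh.1, eq_one hv v1 v2 hh.2⟩

theorem acyclic : Acyclic S := by
  intro u v x huv h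
  have h' : (u : P) * x * v = x := congrArg Subtype.val h
  obtain ⟨h1, h2⟩ := key u.2 v.2 h'
  have h3 : u = 1 := Subtype.ext h1
  have h4 : v = 1 := Subtype.ext h2
  subst h3 h4
  rcases huv with h | h <;> exact h isUnit_one

theorem ha : a ∈ S := Submonoid.subset_closure (by simp)
theorem hb : b ∈ S := Submonoid.subset_closure (by simp)
theorem hc : c ∈ S := Submonoid.subset_closure (by simp)
theorem hd : d ∈ S := Submonoid.subset_closure (by simp)

theorem b_pow (k : ℕ) : b ^ k = ⟨0, 0, -k, k, k⟩ := by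
  induction k with
  | zero => rfl
  | succ k ih =>
    rw [pow_succ, ih]
    ext
    · simp [b]
    · simp [b]
    · simp only [mul_δ, b]; push_cast; ring
    · simp [mul_β, b]
    · simp [mul_ε, b]; omega

theorem x_eq (k : ℕ) : a * b ^ k * c = ⟨1, 1, -k, 0, 0⟩ := by
  rw [b_pow]
  ext
  · simp [a, c]
  · simp [a, c]
  · simp [a, c]
  · simp [a, c, mul_β]
  · simp [a, c, mul_ε]

theorem x_mem (k : ℕ) : a * b ^ k * c ∈ S := S.mul_mem (S.mul_mem ha (S.pow_mem hb k)) hc

theorem rel (k : ℕ) : a * b ^ k * c = d * (a * b ^ (k + 1) * c) := by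
  rw [x_eq, x_eq]
  ext
  · simp [d]
  · simp [d]
  · simp only [mul_δ, d]; push_cast; ring
  · simp [d, mul_β]
  · simp [d, mul_ε]

theorem ideal_lt (k : ℕ) : principalIdeal (⟨_, x_mem k⟩ : S) ⊂
    principalIdeal (⟨_, x_mem (k + 1)⟩ : S) := by
  have hrel : (⟨_, x_mem k⟩ : S) = ⟨d, hd⟩ * ⟨_, x_mem (k + 1)⟩ := Subtype.ext (rel k)
  constructor
  · rintro z ⟨x, y, rfl⟩
    refine ⟨x * ⟨d, hd⟩, y, ?_⟩
    rw [hrel]
    simp only [mul_assoc]
  · intro h
    obtain ⟨x, y, hxy⟩ := h (show (⟨_, x_mem (k + 1)⟩ : S) ∈ principalIdeal _ from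
      ⟨1, 1, by rw [one_mul, mul_one]⟩)
    have h1 : ((x : P) * d) * (a * b ^ (k + 1) * c) * y = a * b ^ (k + 1) * c := by
      have := congrArg Subtype.val hxy
      rw [hrel] at this
      simp only [Submonoid.coe_mul, ← mul_assoc] at this ⊢
      exact this.symm
    have h2 := (key (S.mul_mem x.2 hd) y.2 h1).1
    have h3 := congrArg P.ε h2
    rw [mul_ε] at h3
    simp [d] at h3

theorem fg : Monoid.FG S :=
  (Monoid.fg_iff_submonoid_fg S).mpr ((Submonoid.fg_iff S).mpr ⟨{a, b, c, d}, rfl, by simp⟩)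

end P

/-- **The answer to Q1 is negative**: there is a finitely generated acyclic monoid `H` and a
sequence of elements whose principal ideals form a strictly increasing chain. -/
theorem result : ∃ (H : Type) (_ : Monoid H), Monoid.FG H ∧ Acyclic H ∧
    ∃ x : ℕ → H, ∀ k, principalIdeal (x k) ⊂ principalIdeal (x (k + 1)) :=
  ⟨P.S, inferInstance, P.fg, P.acyclic, fun k => ⟨_, P.x_mem k⟩, P.ideal_lt⟩

end Pool.Agent.Results.MP_07bc1a_al.Counterexample
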